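import Mathlib
import Pool.Agent.Lib.RG.RDefs
import Pool.Agent.Lib.RG.G14
import Pool.Agent.Lib.RGK.BDefs

/-!
RGJ: persistent sets of primes, definitions.
-/

set_option autoImplicit false

namespace Pool.Agent.RGJ

open NumberField IsDedekindDomain
open Pool.Agent.RG (Above IsDec IsInert IsFrob Lies UnrP GP rankGradient)
open Pool.Agent.RG.H (Pr below)

section

variable {K : Type} [Field K] [NumberField K]

/-- The prime `v` of `K` does not split completely in the maximal `p`-extension of `K` unramified
outside `T`: there is a finite Galois extension `F / K` of `p`-power degree, unramified outside `T`,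
such that the decomposition group of some prime of `F` above `v` is not trivial. -/
def NSplit (p : ℕ) (T : Set (HeightOneSpectrum (𝓞 K))) (v : HeightOneSpectrum (𝓞 K)) : Prop :=
  ∃ (F : Type) (_ : Field F) (_ : NumberField F) (_ : Algebra K F) (_ : IsGalois K F),
    (∃ n, Module.finrank K F = p ^ n) ∧ UnrP T F ∧
    ∃ (w : HeightOneSpectrum (𝓞 F)) (σ : F ≃ₐ[K] F), Lies (algebraMap K F) w v ∧ IsDec w σ ∧ σ ≠ 1

/-- The prime `v` of `K` is ramified in the Galois extension `M / K`. -/
def RamAt (v : HeightOneSpectrum (𝓞 K)) (M : Type) [Field M] [NumberField M] [Algebra K M] : Prop :=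
  ∃ (w : HeightOneSpectrum (𝓞 M)) (σ : M ≃ₐ[K] M), Lies (algebraMap K M) w v ∧ IsInert w σ ∧ σ ≠ 1

/-- The set `T` of primes of `K` is persistent: for all fields `K ⊆ L ⊆ M` with `M / K` finite
Galois of `p`-power degree, unramified above `p`, and every finite set `S` of primes of `L` with norms
congruent to `1` modulo `p` which contains the primes above `T`, such that no prime of `K` outside `T`
which lies below `S` or ramifies in `M` splits completely in the maximal `p`-extension of `K`
unramified outside `T`, the group `G_{L,p,S}` is infinite and has rank gradient zero. -/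
def Persistent (p : ℕ) (T : Set (HeightOneSpectrum (𝓞 K))) : Prop :=
  ∀ (L M : Type) [Field L] [NumberField L] [Field M] [NumberField M] [Algebra K L] [Algebra K M]
    [IsGalois K M], Nonempty (L →ₐ[K] M) → (∃ n, Module.finrank K M = p ^ n) →
    (∀ v : HeightOneSpectrum (𝓞 K), Above v p → ¬ RamAt v M) →
    ∀ S : Set (HeightOneSpectrum (𝓞 L)), S.Finite →
      (∀ w ∈ S, Ideal.absNorm w.asIdeal % p = 1) →
      (∀ w : HeightOneSpectrum (𝓞 L), ∀ v ∈ T, Lies (algebraMap K L) w v → w ∈ S) →
      (∀ v : HeightOneSpectrum (𝓞 K), v ∉ T →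
        ((∃ w ∈ S, Lies (algebraMap K L) w v) ∨ RamAt v M) → NSplit p T v) →
      Infinite (GP p S) ∧ rankGradient (GP p S) = 0

/-- the primes of `L` above those of `T` -/
def upS (T : Set (Pr K)) (L : Type) [Field L] [NumberField L] [Algebra K L] : Set (Pr L) :=
  {w | (below w : Pr K) ∈ T}

end

end Pool.Agent.RGJ
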