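import Mathlib
import Pool.Agent.Lib.RGJ.Defs
import Pool.Agent.Lib.RGK.B1
import Pool.Agent.Lib.RGK.B2
import Pool.Agent.Lib.RGK.G01
import Pool.Agent.Lib.RGK.G02
import Pool.Agent.Lib.RGK.G03

/-!
RGJ, row J1: Frobenius elements at primes which do not split completely.

`frob_ne_one`: port of `frob_ne_one` of RG/M4.lean from `ℚ`, `q` to `K`, `v`, `nm v` (`hX.max F`,
`exists_restrictK` (RGK/G02), `inFr_transport` (RGK/G03), `exists_conjK` (RGK/B2), `unrP_iff`
(RGK/G01), `lies_iff_below` (RGK/B1)): suppose `y = 1`; then `1` is a Frobenius element at a prime `w'`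
of `F` above `v`, so at all primes above `v` (`IsFrob.conj_toK`, conjugates of `1`), in particular at
`w`; so `x - x ^ (nm v)` has value `< 1` for all `x` integral at `w`. Since `σ` is in the decomposition
group and `1` is a Frobenius element, `σ` is inert: `B2.dec_frob` says that a decomposition element is a
power of the Frobenius times an inert element, so `σ` is inert (take `φ = 1`), hence `σ = 1` because `F`
is unramified at `v ∉ T`.
`nsplit_of_frob`: `y ≠ 1`, so there is a layer `L` with `restrictNormalHom L y ≠ 1` (`eq_of_layersK`);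
it is `IsFrob w (nm v)`, so `IsDec w`; `hX.deg L`, `hX.unr L`.
-/

set_option autoImplicit false

namespace Pool.Agent.RGJ

open NumberField IsDedekindDomain
open Pool.Agent.RG (Above IsDec IsInert IsFrob Lies UnrP)
open Pool.Agent.RG.H (Pr below)
open Pool.Agent.RGK (MaxExtK InFrK)

variable {K : Type} [Field K] [NumberField K]

theorem frob_ne_one {p : ℕ} {T : Set (Pr K)} {X : Type} [Field X] [Algebra K X]
    (hX : MaxExtK p T X) {v : Pr K} (hv : v ∉ T) (hns : NSplit p T v) {x y : X ≃ₐ[K] X}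
    (h : InFrK v x y) : y ≠ 1 := by
  rintro rfl
  obtain ⟨F, i1, i2, i3, i4, hdeg, hunr, w, σ, hw, hdec, hσ⟩ := hns
  haveI := hX.gal
  rw [RGK.unrP_iff] at hunr
  obtain ⟨e⟩ := hX.max F hdeg hunr
  obtain ⟨r, _, _, hr⟩ := RGK.exists_restrictK e
  obtain ⟨w', hw', _, hfr⟩ := RGK.inFr_transport e hr h
  rw [map_one] at hfr
  have hbw : (below w : Pr K) = v := (RGK.lies_iff_below w v).1 hw
  obtain ⟨τ, hτ⟩ := RGK.exists_conjK (K := K) (w := w') (w' := w) (hw'.trans hbw.symm)
  have h1 := RGK.IsFrob.conj_toK hτ hfr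
  rw [mul_one, mul_inv_cancel, ← hbw] at h1
  obtain ⟨k, hk⟩ := RGK.dec_frob h1 hdec
  rw [one_pow, mul_one] at hk
  apply hσ
  have h2 := hunr w (by rw [hbw]; exact hv) _ hk
  exact inv_eq_one.1 h2

theorem nsplit_of_frob {p : ℕ} {T : Set (Pr K)} {X : Type} [Field X] [Algebra K X]
    (hX : MaxExtK p T X) {v : Pr K} {x y : X ≃ₐ[K] X} (h : InFrK v x y) (hy : y ≠ 1) :
    NSplit p T v := by
  haveI := hX.gal
  by_contra hn
  apply hy
  apply RGK.eq_of_layersK
  intro L _ _
  rw [map_one]
  by_contra h1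
  obtain ⟨w, hw, _, hfr⟩ := h L
  exact hn ⟨L, inferInstance, inferInstance, inferInstance, inferInstance, hX.deg L,
    (RGK.unrP_iff T L).2 (hX.unr L), w, _, (RGK.lies_iff_below w v).2 hw, hfr.1, h1⟩

end Pool.Agent.RGJ
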