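import Mathlib
import Pool.Agent.Lib.RGJ.Defs
import Pool.Agent.Lib.RG.K02
import Pool.Agent.Lib.RGK.B1
import Pool.Agent.Lib.RGK.B2

/-!
RGJ, row J3: the Galois closure over `k` of a `p`-extension of `K`: port of `unr_of_core` of RG/K02.lean
from `ℚ` to the number field `k` (`card_of_core` of RG/K02 is general; `exists_translateK`,
`IsInert.restrictK`, `IsInert.conj_toK`, `LiesA.below_eq` of RGK/B1, B2).
-/

set_option autoImplicit false

namespace Pool.Agent.RGJ

open NumberField IsDedekindDomain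
open Pool.Agent.RG (Above IsDec IsInert IsFrob Lies UnrP)
open Pool.Agent.RG.H (Pr below)
open Pool.Agent.RGK (UnrOutK)

private theorem J3_bb {K F N : Type} [Field K] [NumberField K] [Field F] [NumberField F]
    [Field N] [NumberField N] [Algebra K F] [Algebra F N] [Algebra K N] [IsScalarTower K F N]
    (w : Pr N) : (below (below w : Pr F) : Pr K) = below w := by
  apply HeightOneSpectrum.ext
  exact Ideal.under_under w.asIdeal

/-- restriction of automorphisms along a homomorphism of Galois extensions of `k` -/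
private theorem J3_restrict {k M₁ M₂ : Type} [Field k] [Field M₁] [Field M₂] [Algebra k M₁]
    [Algebra k M₂] [IsGalois k M₁] (j : M₁ →ₐ[k] M₂) :
    ∃ r : (M₂ ≃ₐ[k] M₂) →* (M₁ ≃ₐ[k] M₁), ∀ g x, g (j x) = j (r g x) := by
  let _ : Algebra M₁ M₂ := (j : M₁ →+* M₂).toAlgebra
  have _ : IsScalarTower k M₁ M₂ := IsScalarTower.of_algebraMap_eq fun x => (j.commutes x).symm
  exact ⟨AlgEquiv.restrictNormalHom M₁, fun g x => (AlgEquiv.restrictNormal_commutes g M₁ x).symm⟩

/-- restriction of the automorphisms of `M` which fix `K` to a normal extension of `K` -/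
private theorem J3_restrictK {k K L M : Type} [Field k] [Field K] [Field L] [Field M]
    [Algebra k K] [Algebra k L] [Algebra k M] [Algebra K L] [IsScalarTower k K L] [IsGalois K L]
    (l : L →ₐ[k] M) (H : Subgroup (M ≃ₐ[k] M))
    (hH : ∀ g ∈ H, ∀ a : K, g (l (algebraMap K L a)) = l (algebraMap K L a)) :
    ∃ β : H →* (L ≃ₐ[K] L), ∀ (g : H) x, g.1 (l x) = l (β g x) := by
  let _ : Algebra L M := (l : L →+* M).toAlgebra
  let _ : Algebra K M := ((l : L →+* M).comp (algebraMap K L)).toAlgebra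
  have _ : IsScalarTower K L M := IsScalarTower.of_algebraMap_eq (fun x => rfl)
  let ψ : H →* (M ≃ₐ[K] M) :=
    { toFun := fun g => AlgEquiv.ofRingEquiv (f := (g.1 : M ≃+* M)) (fun a => hH g.1 g.2 a)
      map_one' := by
        ext x
        rfl
      map_mul' := by
        intro g h
        ext x
        rfl }
  refine ⟨(AlgEquiv.restrictNormalHom L).comp ψ, fun g x => ?_⟩
  exact (AlgEquiv.restrictNormal_commutes (ψ g) L x).symm

theorem unr_of_coreK {p : ℕ} [Fact p.Prime] {k : Type} [Field k] [NumberField k] {S : Set (Pr k)}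
    {K L L₁ M : Type} [Field K] [NumberField K] [Algebra k K] [Field L] [NumberField L]
    [Algebra k L] [Field L₁] [NumberField L₁] [Algebra k L₁] [Field M] [NumberField M]
    [Algebra k M] [Algebra K L] [IsScalarTower k K L] [IsGalois K L] [IsGalois k L₁] [IsGalois k M]
    (hd : ∃ n, Module.finrank K L = p ^ n) (hd₁ : ∃ n, Module.finrank k L₁ = p ^ n)
    (hu : UnrOutK (upS S K) L) (h₁ : UnrOutK S L₁) (k₁ : K →ₐ[k] L₁) (l : L →ₐ[k] M)
    (l₁ : L₁ →ₐ[k] M) (hK : ∀ a : K, l₁ (k₁ a) = l (algebraMap K L a))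
    (hcore : ∀ σ : M ≃ₐ[k] M, (∀ τ : M ≃ₐ[k] M, (∀ x, (τ * σ * τ⁻¹) (l x) = l x) ∧
      ∀ x, (τ * σ * τ⁻¹) (l₁ x) = l₁ x) → σ = 1) :
    (∃ n, Module.finrank k M = p ^ n) ∧ UnrOutK S M := by
  have hfd : FiniteDimensional K L := Module.Finite.of_restrictScalars_finite ℚ K L
  have hfd1 : FiniteDimensional k L₁ := Module.Finite.of_restrictScalars_finite ℚ k L₁
  have hfdM : FiniteDimensional k M := Module.Finite.of_restrictScalars_finite ℚ k M
  obtain ⟨α, hα⟩ := J3_restrict l₁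
  have hker : ∀ g ∈ α.ker, ∀ x, g (l₁ x) = l₁ x := by
    intro g hg x
    rw [hα, MonoidHom.mem_ker.mp hg]
    rfl
  have hkerK : ∀ g ∈ α.ker, ∀ a : K, g (l (algebraMap K L a)) = l (algebraMap K L a) := by
    intro g hg a
    rw [← hK]
    exact hker g hg _
  obtain ⟨β, hβ⟩ := J3_restrictK (K := K) l α.ker hkerK
  constructor
  · have hPA : IsPGroup p (L₁ ≃ₐ[k] L₁) := by
      obtain ⟨n, hn⟩ := hd₁
      apply IsPGroup.of_card (n := n)
      rw [IsGalois.card_aut_eq_finrank, hn]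
    have hPB : IsPGroup p (L ≃ₐ[K] L) := by
      obtain ⟨n, hn⟩ := hd
      apply IsPGroup.of_card (n := n)
      rw [IsGalois.card_aut_eq_finrank, hn]
    have hPG : IsPGroup p (M ≃ₐ[k] M) := by
      refine RG.card_of_core hPA hPB α β (fun g hg => hcore g (fun τ => ?_))
      obtain ⟨h, hh⟩ := hg τ
      refine ⟨fun x => ?_, fun x => hker _ h x⟩
      have h2 := hβ ⟨τ * g * τ⁻¹, h⟩ x
      rw [hh] at h2
      exact h2
    obtain ⟨n, hn⟩ := IsPGroup.iff_card.mp hPG
    exact ⟨n, by rw [← IsGalois.card_aut_eq_finrank, hn]⟩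
  · intro w hw σ hσ
    apply hcore
    intro τ
    obtain ⟨w', hbw', hw'⟩ := RGK.exists_translateK (K := k) w τ
    have hin : IsInert w' (τ * σ * τ⁻¹) := RGK.IsInert.conj_toK hw' hσ
    rw [← hbw'] at hw
    set ρ := τ * σ * τ⁻¹ with hρ
    obtain ⟨w₁, hw₁⟩ := RG.exists_below (l₁ : L₁ →+* M) w'
    have hl₁ : RGK.LiesA l₁ w' w₁ := hw₁
    have hin₁ : IsInert w₁ (α ρ) := RGK.IsInert.restrictK hl₁ (fun x => hα ρ x) hin
    have h2 : α ρ = 1 := h₁ w₁ (by rw [← RGK.LiesA.below_eq hl₁]; exact hw) _ hin₁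
    have h3 : ρ ∈ α.ker := h2
    obtain ⟨w₂, hw₂⟩ := RG.exists_below (l : L →+* M) w'
    have hl₂ : RGK.LiesA l w' w₂ := hw₂
    have hin₂ : IsInert w₂ ((β ⟨ρ, h3⟩).restrictScalars k) :=
      RGK.IsInert.restrictK hl₂ (fun x => hβ ⟨ρ, h3⟩ x) hin
    have hin₃ : IsInert w₂ (β ⟨ρ, h3⟩) := ⟨fun x => hin₂.1 x, fun x hx => hin₂.2 x hx⟩
    have h4 : β ⟨ρ, h3⟩ = 1 := by
      refine hu w₂ (fun hmem => hw ?_) _ hin₃
      have h5 : (below (below w₂ : Pr K) : Pr k) ∈ S := hmem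
      rw [J3_bb, ← RGK.LiesA.below_eq hl₂] at h5
      exact h5
    refine ⟨fun x => ?_, fun x => hker ρ h3 x⟩
    have h5 := hβ ⟨ρ, h3⟩ x
    rw [h4] at h5
    exact h5

end Pool.Agent.RGJ
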