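import Mathlib
import Pool.Agent.Lib.RGJ.Defs
import Pool.Agent.Lib.RG.RDefs
import Pool.Agent.Lib.RGK.B1
import Pool.Agent.Lib.RGK.B2
import Pool.Agent.Lib.RGK.G01
import Pool.Agent.Lib.RGK.G02

/-!
RGJ, row J5: the compositum of `K` with the maximal `p`-extension of `k` unramified outside `T` is
contained in the maximal `p`-extension of `K` unramified outside `S'`, when `S'` contains all primes of
`K` above `T`: port of RG/R2.lean from `ℚ` to the number field `k`.
-/

set_option autoImplicit false

namespace Pool.Agent.RGJ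

open NumberField IsDedekindDomain
open Pool.Agent.RG (Above IsDec IsInert IsFrob Lies UnrP InCP maxExtP)
open Pool.Agent.RG.H (Pr below)
open Pool.Agent.RGK (MaxExtK UnrOutK LiesA)

/-- the prime below the prime below -/
theorem below_belowJ {k K N : Type} [Field k] [NumberField k] [Field K] [NumberField K] [Field N]
    [NumberField N] [Algebra k K] [Algebra K N] [Algebra k N] [IsScalarTower k K N] (w : Pr N) :
    (below (below w : Pr K) : Pr k) = below w := by
  have h1 : Lies (algebraMap K N) w (below w : Pr K) := (RGK.lies_iff_below w _).2 rfl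
  have h2 : Lies (algebraMap k K) (below w : Pr K) (below (below w : Pr K) : Pr k) :=
    (RGK.lies_iff_below _ _).2 rfl
  have h3 := RG.Lies.trans h1 h2
  rw [← IsScalarTower.algebraMap_eq] at h3
  exact ((RGK.lies_iff_below w _).1 h3).symm

private theorem exists_res' {k K L N : Type} [Field k] [Field K] [Field L] [Field N] [Algebra k K]
    [Algebra k L] [Algebra k N] [Algebra K N] [IsScalarTower k K N] [IsGalois k L]
    (j : L →ₐ[k] N) (σ : N ≃ₐ[K] N) : ∃ τ : L ≃ₐ[k] L, ∀ x, σ (j x) = j (τ x) := by
  letI : Algebra L N := j.toRingHom.toAlgebra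
  haveI : IsScalarTower k L N := IsScalarTower.of_algebraMap_eq (fun x => (j.commutes x).symm)
  exact ⟨AlgEquiv.restrictNormalHom L (σ.restrictScalars k), fun x =>
    (AlgEquiv.restrictNormal_commutes (σ.restrictScalars k) L x).symm⟩

private theorem pow_comm' {k K L N : Type} [Field k] [Field K] [Field L] [Field N] [Algebra k K]
    [Algebra k L] [Algebra k N] [Algebra K N] (j : L →ₐ[k] N) (σ : N ≃ₐ[K] N) (τ : L ≃ₐ[k] L)
    (h : ∀ x, σ (j x) = j (τ x)) (n : ℕ) (x : L) : (σ ^ n) (j x) = j ((τ ^ n) x) := by
  induction n generalizing x with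
  | zero => simp
  | succ n ih => rw [pow_succ, pow_succ, AlgEquiv.mul_apply, AlgEquiv.mul_apply, h, ih]

private theorem degree {p : ℕ} [Fact p.Prime] {k K L N : Type} [Field k] [NumberField k] [Field K]
    [NumberField K] [Field L] [NumberField L] [Field N] [NumberField N] [Algebra k K]
    [Algebra k L] [Algebra k N] [Algebra K N] [IsScalarTower k K N] [IsGalois k L]
    [FiniteDimensional k L] [FiniteDimensional K N] [IsGalois K N] (j : L →ₐ[k] N)
    (hgen : ∀ σ : N ≃ₐ[K] N, (∀ x, σ (j x) = j x) → σ = 1)
    (hd : ∃ n, Module.finrank k L = p ^ n) : ∃ n, Module.finrank K N = p ^ n := by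
  obtain ⟨m, hm⟩ := hd
  have hp : IsPGroup p (N ≃ₐ[K] N) := by
    intro σ
    refine ⟨m, hgen _ fun x => ?_⟩
    obtain ⟨τ, hτ⟩ := exists_res' (K := K) j σ
    have e : τ ^ p ^ m = 1 := by
      rw [← hm, ← IsGalois.card_aut_eq_finrank]
      exact pow_card_eq_one'
    rw [pow_comm' j σ τ hτ, e]
    rfl
  obtain ⟨n, hn⟩ := IsPGroup.iff_card.1 hp
  exact ⟨n, by rw [← hn, IsGalois.card_aut_eq_finrank]⟩

private theorem unr {k K L N : Type} [Field k] [NumberField k] {T : Set (Pr k)} [Field K]
    [NumberField K] [Field L] [NumberField L] [Field N] [NumberField N] [Algebra k K]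
    [Algebra k L] [Algebra k N] [Algebra K N] [IsScalarTower k K N] [IsGalois k L] (j : L →ₐ[k] N)
    (hgen : ∀ σ : N ≃ₐ[K] N, (∀ x, σ (j x) = j x) → σ = 1) {S' : Set (Pr K)}
    (hS' : ∀ w : Pr K, (below w : Pr k) ∈ T → w ∈ S') (hL : UnrOutK T L) : UnrOutK S' N := by
  intro w hw σ hσ
  refine hgen σ fun x => ?_
  obtain ⟨u, hu⟩ := RG.exists_below (j : L →+* N) w
  have hu' : LiesA j w u := hu
  obtain ⟨τ, hτ⟩ := exists_res' (K := K) j σ
  have hσ' : IsInert w (σ.restrictScalars k) := hσ
  have h1 : IsInert u τ := RGK.IsInert.restrictK hu' (σ₂ := σ.restrictScalars k) hτ hσ'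
  have h2 : τ = 1 := by
    refine hL u ?_ τ h1
    intro hT
    refine hw (hS' _ ?_)
    rw [below_belowJ, RGK.LiesA.below_eq hu']
    exact hT
  rw [hτ x, h2]
  rfl

private theorem compositum {p : ℕ} [Fact p.Prime] {k : Type} [Field k] [NumberField k]
    {T : Set (Pr k)} {K : Type} [Field K] [NumberField K] [Algebra k K] {S' : Set (Pr K)}
    (hS' : ∀ w : Pr K, (below w : Pr k) ∈ T → w ∈ S') {L : Type} [Field L] [NumberField L]
    [Algebra k L] [IsGalois k L] (hd : ∃ n, Module.finrank k L = p ^ n) (hL : UnrOutK T L)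
    (φ : L →ₐ[k] AlgebraicClosure K) (y : L) : φ y ∈ maxExtP p S' := by
  have hfL : FiniteDimensional k L := Module.Finite.of_restrictScalars_finite ℚ k L
  obtain ⟨α, hα⟩ := Field.exists_primitive_element k L
  let N : IntermediateField K (AlgebraicClosure K) := IntermediateField.adjoin K {φ α}
  have hmem : ∀ z, φ z ∈ N := by
    intro z
    have h1 : IntermediateField.adjoin k {α} ≤ (N.restrictScalars k).comap φ := by
      rw [IntermediateField.adjoin_simple_le_iff]
      exact IntermediateField.mem_adjoin_simple_self K (φ α)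
    rw [hα] at h1
    exact h1 (IntermediateField.mem_top (x := z))
  have fd : FiniteDimensional K N :=
    IntermediateField.adjoin.finiteDimensional (Algebra.IsIntegral.isIntegral (φ α))
  have nf : NumberField N := NumberField.of_module_finite K N
  have nm : Normal K N := by
    rw [IntermediateField.normal_iff_forall_map_le]
    intro σ
    rw [IntermediateField.adjoin_map, IntermediateField.adjoin_le_iff, Set.image_singleton,
      Set.singleton_subset_iff]
    have hn : Normal k L := IsGalois.to_normal
    let e := AlgEquiv.ofInjectiveField φ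
    have hn2 : Normal k φ.fieldRange := Normal.of_algEquiv e
    let f := (σ.restrictScalars k).comp φ.fieldRange.val
    have h1 : f.fieldRange = φ.fieldRange := AlgHom.fieldRange_of_normal f
    have h2 : f ⟨φ α, ⟨α, rfl⟩⟩ ∈ f.fieldRange := ⟨_, rfl⟩
    rw [h1] at h2
    obtain ⟨β, hβ⟩ := h2
    have h3 : φ β = σ (φ α) := hβ
    rw [← h3]
    exact hmem β
  have gal : IsGalois K N := ⟨⟩
  let j : L →ₐ[k] N :=
    { toRingHom := (φ : L →+* AlgebraicClosure K).codRestrict N hmem
      commutes' := fun c => by
        apply Subtype.ext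
        change φ (algebraMap k L c) = ((algebraMap k N c : N) : AlgebraicClosure K)
        rw [φ.commutes]
        rfl }
  have hj : ∀ z, ((j z : N) : AlgebraicClosure K) = φ z := fun z => rfl
  have hgen : ∀ σ : N ≃ₐ[K] N, (∀ x, σ (j x) = j x) → σ = 1 := by
    intro σ h
    have h1 : (σ : N →ₐ[K] N) = AlgHom.id K N := by
      refine IntermediateField.adjoin_algHom_ext K ?_
      intro x hx
      rw [Set.mem_singleton_iff] at hx
      subst hx
      exact h α
    refine AlgEquiv.ext fun x => ?_
    exact DFunLike.congr_fun h1 x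
  have hN : InCP p S' N := ⟨nf, gal, degree (k := k) j hgen hd,
    (RGK.unrP_iff S' N).2 (unr (k := k) j hgen hS' hL)⟩
  have hle : N ≤ maxExtP p S' := le_sSup hN
  exact hle (hmem y)

theorem mem_maxExtPK {p : ℕ} [Fact p.Prime] {k : Type} [Field k] [NumberField k] {T : Set (Pr k)}
    {K : Type} [Field K] [NumberField K] [Algebra k K] {S' : Set (Pr K)}
    (hS' : ∀ w : Pr K, (below w : Pr k) ∈ T → w ∈ S') {X₁ X : Type} [Field X₁] [Algebra k X₁]
    (hX₁ : MaxExtK p T X₁) [Field X] [Algebra k X] [Algebra K X] [IsScalarTower k K X]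
    (i : X₁ →ₐ[k] X) (f : X →ₐ[K] AlgebraicClosure K) (x : X₁) : f (i x) ∈ maxExtP p S' := by
  have hgal := hX₁.gal
  let L := FiniteGaloisIntermediateField.adjoin k {x}
  have hx : x ∈ L.toIntermediateField := FiniteGaloisIntermediateField.subset_adjoin _ _ rfl
  have h0 : FiniteDimensional k L.toIntermediateField := L.finiteDimensional
  have h1 : NumberField L.toIntermediateField :=
    NumberField.of_module_finite k L.toIntermediateField
  have h2 : IsGalois k L.toIntermediateField := L.isGalois
  exact compositum hS' (hX₁.deg L.toIntermediateField) (hX₁.unr L.toIntermediateField)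
    (((f.restrictScalars k).comp i).comp L.toIntermediateField.val) ⟨x, hx⟩

end Pool.Agent.RGJ
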