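import Mathlib
import Pool.Agent.Lib.RGJ.J2
import Pool.Agent.Lib.RGJ.J3
import Pool.Agent.Lib.RGJ.J5
import Pool.Agent.Lib.RG.RDefs
import Pool.Agent.Lib.RGK.G01
import Pool.Agent.Lib.RGK.G02

/-!
RGJ, row J4: the maximal extension of `K` is the maximal extension of `k`: port of RG/K04.lean and
RG/K05.lean (and of what is needed of K01) from `ℚ` to the number field `k`; uses J2 and J3.
`UnrP S L ↔ UnrOutK S L` is `unrP_iff` (RGK/G01).
-/

set_option autoImplicit false

namespace Pool.Agent.RGJ

open NumberField IsDedekindDomain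
open Pool.Agent.RG (Above IsDec IsInert IsFrob Lies UnrP maxExtP InCP)
open Pool.Agent.RG.H (Pr below)
open Pool.Agent.RGK (MaxExtK UnrOutK)

/-- two embeddings of a normal extension have the same range -/
private theorem range_eq {K L Ω : Type} [Field K] [Field L] [Field Ω] [Algebra K L] [Algebra K Ω]
    [hn : Normal K L] (i h : L →ₐ[K] Ω) (x : L) : ∃ y, h y = i x := by
  let e : L ≃ₐ[K] i.fieldRange := AlgEquiv.ofInjectiveField i
  have hn : Normal K i.fieldRange := Normal.of_algEquiv e
  let f : i.fieldRange →ₐ[K] Ω := h.comp (e.symm : i.fieldRange →ₐ[K] L)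
  have h1 : f.fieldRange = i.fieldRange := AlgHom.fieldRange_of_normal f
  have h2 : i x ∈ f.fieldRange := by
    rw [h1]
    exact ⟨x, rfl⟩
  obtain ⟨z, hz⟩ := h2
  exact ⟨e.symm z, hz⟩

/-- a finite Galois layer of `X / k` which contains the image of `K` and a given element -/
private theorem layer {k K X : Type} [Field k] [NumberField k] [Field K] [NumberField K]
    [Algebra k K] [Field X] [Algebra k X] [IsGalois k X] (φ : K →ₐ[k] X) (x : X) :
    ∃ (L : IntermediateField k X) (_ : NumberField L) (_ : IsGalois k L),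
      (∀ a : K, φ a ∈ L) ∧ x ∈ L := by
  have hfK : FiniteDimensional k K := Module.Finite.of_restrictScalars_finite ℚ k K
  obtain ⟨θ, hθ⟩ := Field.exists_primitive_element k K
  let L := FiniteGaloisIntermediateField.adjoin k ({φ θ, x} : Set X)
  have hsub : ({φ θ, x} : Set X) ⊆ L.toIntermediateField :=
    FiniteGaloisIntermediateField.subset_adjoin _ _
  have h0 : FiniteDimensional k L.toIntermediateField := L.finiteDimensional
  have h1 : NumberField L.toIntermediateField :=
    NumberField.of_module_finite k L.toIntermediateField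
  have h2 : IsGalois k L.toIntermediateField := L.isGalois
  refine ⟨L.toIntermediateField, h1, h2, fun a => ?_, hsub (by simp)⟩
  have h3 : (IntermediateField.adjoin k ({θ} : Set K)).map φ ≤ L.toIntermediateField := by
    rw [IntermediateField.adjoin_map, IntermediateField.adjoin_le_iff]
    rintro _ ⟨b, hb, rfl⟩
    rw [Set.mem_singleton_iff] at hb
    rw [hb]
    exact hsub (by simp)
  apply h3
  rw [hθ]
  exact ⟨a, trivial, rfl⟩

private theorem unr_rel {k K L : Type} [Field k] [NumberField k] {S : Set (Pr k)} [Field K]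
    [NumberField K] [Algebra k K] [Field L] [NumberField L] [Algebra k L] [Algebra K L]
    [IsScalarTower k K L] (h : UnrOutK S L) : UnrOutK (upS S K) L := by
  intro w hw σ hσ
  have h1 : (below w : Pr k) ∉ S := by
    intro h2
    refine hw ?_
    change (below (below w : Pr K) : Pr k) ∈ S
    rw [below_belowJ]
    exact h2
  have h3 : IsInert w (σ.restrictScalars k) := hσ
  have h4 := h w h1 _ h3
  ext x
  exact DFunLike.congr_fun h4 x

private theorem fieldRange_le {p : ℕ} [Fact p.Prime] {k : Type} [Field k] [NumberField k]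
    {S : Set (Pr k)} {K X : Type} [Field K] [NumberField K] [Algebra k K] [Field X] [Algebra k X]
    [Algebra K X] [IsScalarTower k K X] (hX : MaxExtK p S X) (f : X →ₐ[K] AlgebraicClosure K) :
    f.fieldRange ≤ maxExtP p (upS S K) := by
  rintro _ ⟨x, rfl⟩
  have hgal := hX.gal
  obtain ⟨L, hnf, hG, hK, hx⟩ := layer (IsScalarTower.toAlgHom k K X) x
  let ψ : K →+* L := (algebraMap K X).codRestrict L hK
  have hψ : ∀ a, ((ψ a : L) : X) = algebraMap K X a := fun a => rfl
  let _ : Algebra K L := ψ.toAlgebra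
  have : IsScalarTower k K L := IsScalarTower.of_algebraMap_eq fun a => by
    apply Subtype.ext
    change algebraMap k X a = ((ψ (algebraMap k K a) : L) : X)
    rw [hψ, ← IsScalarTower.algebraMap_apply]
  have : FiniteDimensional k L := Module.Finite.of_restrictScalars_finite ℚ k L
  have : IsGalois K L := IsGalois.tower_top_of_isGalois k K L
  have : FiniteDimensional K L := FiniteDimensional.right k K L
  have hd : ∃ n, Module.finrank K L = p ^ n := by
    obtain ⟨n, hn⟩ := hX.deg L
    have h1 := Module.finrank_mul_finrank k K L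
    have h2 : Module.finrank K L ∣ p ^ n := by
      rw [← hn]
      exact ⟨_, by rw [mul_comm]; exact h1.symm⟩
    obtain ⟨j, -, hj⟩ := (Nat.dvd_prime_pow Fact.out).mp h2
    exact ⟨j, hj⟩
  have hu : UnrOutK (upS S K) L := unr_rel (hX.unr L)
  let g : L →ₐ[K] AlgebraicClosure K :=
    { f.toRingHom.comp (algebraMap L X) with
      commutes' := by
        intro a
        show f ((ψ a : L) : X) = _
        rw [hψ, f.commutes] }
  obtain ⟨h⟩ := (RGK.maxExtK_maxExtP p (upS S K)).max L hd hu
  obtain ⟨y, hy⟩ := range_eq g ((maxExtP p (upS S K)).val.comp h) ⟨x, hx⟩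
  have h3 : g ⟨x, hx⟩ = f x := rfl
  change f x ∈ maxExtP p (upS S K)
  rw [← h3, ← hy]
  exact (h y).2

private theorem le_fieldRange {p : ℕ} [Fact p.Prime] {k : Type} [Field k] [NumberField k]
    {S : Set (Pr k)} {K X : Type} [Field K] [NumberField K] [Algebra k K] [Field X] [Algebra k X]
    [Algebra K X] [IsScalarTower k K X] (hX : MaxExtK p S X) (f : X →ₐ[K] AlgebraicClosure K)
    (L : IntermediateField K (AlgebraicClosure K)) (hL : InCP p (upS S K) L) :
    L ≤ f.fieldRange := by
  obtain ⟨hnfL, hGL, hdL, huL⟩ := hL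
  have hgal := hX.gal
  obtain ⟨L₁, hnf₁, hG₁, hK₁, -⟩ := layer (IsScalarTower.toAlgHom k K X) (0 : X)
  let k₁ : K →ₐ[k] L₁ := (IsScalarTower.toAlgHom k K X).codRestrict L₁.toSubalgebra hK₁
  have hk₁ : ∀ a, ((k₁ a : L₁) : X) = algebraMap K X a := fun a => rfl
  obtain ⟨M, hM1, hM2, hM3, hM4, i, l', l₁', hl', hl₁', hcore⟩ :=
    exists_galois_closureK (Ω := AlgebraicClosure K) (L := L) (L₁ := L₁)
      (L.val.restrictScalars k) ((f.restrictScalars k).comp L₁.val)
  have hcomm : ∀ a : K, l₁' (k₁ a) = l' (algebraMap K L a) := by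
    intro a
    apply i.toRingHom.injective
    change i (l₁' (k₁ a)) = i (l' (algebraMap K L a))
    rw [hl₁', hl']
    show f ((k₁ a : L₁) : X) = algebraMap L (AlgebraicClosure K) (algebraMap K L a)
    rw [hk₁, f.commutes]
    rfl
  have huL' : UnrOutK (upS S K) L := (RGK.unrP_iff _ L).1 huL
  obtain ⟨hd, hu⟩ := unr_of_coreK (p := p) (S := S) hdL (hX.deg L₁) huL' (hX.unr L₁) k₁ l' l₁'
    hcomm hcore
  obtain ⟨g⟩ := hX.max M hd hu
  intro x hx
  obtain ⟨y, hy⟩ := range_eq i ((f.restrictScalars k).comp g) (l' ⟨x, hx⟩)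
  rw [hl'] at hy
  exact ⟨g y, hy⟩

theorem exists_isoK {p : ℕ} [Fact p.Prime] {k : Type} [Field k] [NumberField k] {S : Set (Pr k)}
    {K X : Type} [Field K] [NumberField K] [Algebra k K] [Field X] [Algebra k X] [Algebra K X]
    [IsScalarTower k K X] (hX : MaxExtK p S X) :
    Nonempty (X ≃ₐ[K] maxExtP p (upS S K)) := by
  have hgal := hX.gal
  have : Algebra.IsAlgebraic K X := Algebra.IsAlgebraic.tower_top (K := k) K
  let f : X →ₐ[K] AlgebraicClosure K := IsAlgClosed.lift
  have h1 : f.fieldRange = maxExtP p (upS S K) :=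
    le_antisymm (fieldRange_le hX f) (sSup_le (fun L hL => le_fieldRange hX f L hL))
  exact ⟨(AlgEquiv.ofInjectiveField f).trans (IntermediateField.equivOfEq h1)⟩

end Pool.Agent.RGJ
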