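import Mathlib
import Pool.Agent.Lib.RGJ.Defs
import Pool.Agent.Lib.RG.R4
import Pool.Agent.Lib.RGK.B1
import Pool.Agent.Lib.RGK.B2
import Pool.Agent.Lib.RGK.B3
import Pool.Agent.Lib.RGK.G01
import Pool.Agent.Lib.RGK.C00
import Pool.Agent.Lib.RG.H03

/-!
RGJ, row J6: norms and ramified primes: port of RG/R4.lean and RG/K10.lean from `ℚ` to the number
field `k`.

`nm_modK`: `nm w = nm (below w) ^ f` with `f = fd k w` the residue degree (there are lemmas about
`fd` and `nm` in RGK/C00, C01), `f` divides the residue degree of a prime of `M` above `w` over `k`,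
which divides `[M : k] = p ^ n`; so `f` is a power of `p` and `x ^ f = x` modulo `p`.
`ramified_setK`: the set of ramified primes is finite: `{v | RamAt v M}` is below the primes of `M`
which are ramified over `k`; a nontrivial inert `σ` over `k` is an inert `ℚ`-automorphism if `M / ℚ` is
Galois; in general take a finite Galois extension of `ℚ` containing `M` and `exists_inert_lift`, or
(better) `RamS` in RGK/C14.lean line 60 (`(RamS L).Finite`) and the lemma which is used there; or use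
`Ideal.finite_..` for the different ideal. The congruence: as in RG/K10 with `exists_frobK`,
`tame_relationK` (RGK/B3).
-/

set_option autoImplicit false

namespace Pool.Agent.RGJ

open NumberField IsDedekindDomain
open Pool.Agent.RG (Above IsDec IsInert IsFrob Lies UnrP)
open Pool.Agent.RG.H (Pr below)
open Pool.Agent.RGK (nm UnrOutK)

private theorem J6_fd {p n : ℕ} {k M : Type} [Field k] [NumberField k] [Field M]
    [NumberField M] [Algebra k M] [IsGalois k M] (hn : Module.finrank k M = p ^ n) (w : Pr M) :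
    w.asIdeal.inertiaDeg (𝓞 k) ∣ p ^ n := by
  have hfd : FiniteDimensional k M := Module.Finite.of_restrictScalars_finite ℚ k M
  have hG := IsGaloisGroup.of_isFractionRing (M ≃ₐ[k] M) (𝓞 k) (𝓞 M) k M
  have hmax : (below w : Pr k).asIdeal.IsMaximal := (below w : Pr k).isMaximal
  have hl : w.asIdeal.LiesOver (below w : Pr k).asIdeal := ⟨rfl⟩
  have h3 := Ideal.ncard_primesOver_mul_ramificationIdxIn_mul_inertiaDegIn
    (below w : Pr k).asIdeal (𝓞 M) (M ≃ₐ[k] M)
  rw [IsGalois.card_aut_eq_finrank, hn,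
    Ideal.inertiaDegIn_eq_inertiaDeg (below w : Pr k).asIdeal w.asIdeal (M ≃ₐ[k] M)] at h3
  rw [← h3]
  exact (dvd_mul_left _ _).trans (dvd_mul_left _ _)

theorem nm_modK {p : ℕ} [Fact p.Prime] {k K M : Type} [Field k] [NumberField k] [Field K]
    [NumberField K] [Field M] [NumberField M] [Algebra k K] [Algebra k M] [IsGalois k M]
    (hd : ∃ n, Module.finrank k M = p ^ n) (j : K →ₐ[k] M) (w : Pr K) (h : nm w % p = 1) :
    nm (below w : Pr k) % p = 1 := by
  have hp := (Fact.out : p.Prime)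
  obtain ⟨n, hn⟩ := hd
  obtain ⟨w', hw'⟩ := RG.exists_above (j : K →+* M) w
  let _ : Algebra K M := (j : K →+* M).toAlgebra
  have _ : IsScalarTower k K M := IsScalarTower.of_algebraMap_eq fun x => (j.commutes x).symm
  have hlo : w'.asIdeal.LiesOver w.asIdeal := by
    constructor
    ext x
    rw [Ideal.mem_comap, ← RG.G01aux.mem_iff, ← RG.G01aux.mem_iff, ← (hw' _).2]
    rfl
  have h1 : w.asIdeal.inertiaDeg (𝓞 k) ∣ w'.asIdeal.inertiaDeg (𝓞 k) :=
    Ideal.inertiaDeg_below_dvd w.asIdeal w'.asIdeal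
  obtain ⟨a, -, ha⟩ := (Nat.dvd_prime_pow hp).1 (h1.trans (J6_fd hn w'))
  have h4 := (RGK.nm_tower k w).2
  have h4' : RGK.fd k w = p ^ a := ha
  rw [h4'] at h4
  have h5 : ((nm w : ℕ) : ZMod p) = ((1 : ℕ) : ZMod p) := by
    rw [ZMod.natCast_eq_natCast_iff', h, Nat.mod_eq_of_lt hp.one_lt]
  rw [h4, Nat.cast_pow, ZMod.pow_card_pow] at h5
  rw [ZMod.natCast_eq_natCast_iff', Nat.mod_eq_of_lt hp.one_lt] at h5
  exact h5

theorem ramified_setK {p : ℕ} [Fact p.Prime] {k M : Type} [Field k] [NumberField k] [Field M]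
    [NumberField M] [Algebra k M] [IsGalois k M] (hd : ∃ n, Module.finrank k M = p ^ n)
    (ht : ∀ v : Pr k, Above v p → ¬ RamAt v M) :
    {v : Pr k | RamAt v M}.Finite ∧ (∀ v : Pr k, RamAt v M → nm v % p = 1) ∧
      UnrOutK {v : Pr k | RamAt v M} M := by
  have hp := (Fact.out : p.Prime)
  have hfdM : FiniteDimensional k M := Module.Finite.of_restrictScalars_finite ℚ k M
  obtain ⟨n, hn⟩ := hd
  refine ⟨?_, ?_, ?_⟩
  · refine ((RG.H.fin_ram (K := k) (L := M)).image fun w : Pr M => (below w : Pr k)).subset ?_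
    rintro v ⟨w, σ, hw, hσ, hne⟩
    exact ⟨w, ⟨σ, hne, hσ⟩, (RGK.lies_iff_below w v).1 hw⟩
  · rintro v hv
    have hvp : ¬ Above v p := fun h => ht v h hv
    obtain ⟨w, σ, hw, hσ, hne⟩ := hv
    have hbw : (below w : Pr k) = v := (RGK.lies_iff_below w v).1 hw
    have hwp : ¬ Above w p := by
      intro h
      rw [RG.H.above_iff (K := k), hbw] at h
      exact hvp h
    obtain ⟨s, hs⟩ := RGK.exists_frobK (K := k) w
    have hpow : ∀ g : M ≃ₐ[k] M, g ^ (p ^ n) = 1 := fun g => by
      rw [← hn, ← IsGalois.card_aut_eq_finrank]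
      exact pow_card_eq_one'
    obtain ⟨a, ha, hord⟩ := (Nat.dvd_prime_pow hp).1 (orderOf_dvd_of_pow_eq_one (hpow σ))
    have ha0 : a ≠ 0 := by
      rintro rfl
      rw [pow_zero, orderOf_eq_one_iff] at hord
      exact hne hord
    obtain ⟨b, rfl⟩ := Nat.exists_eq_succ_of_ne_zero ha0
    have hτo : orderOf (σ ^ (p ^ b)) = p := by
      rw [orderOf_pow' σ (pow_ne_zero _ hp.ne_zero), hord, Nat.succ_eq_add_one, pow_succ,
        Nat.gcd_mul_right_left, Nat.mul_div_cancel_left _ (pow_pos hp.pos _)]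
    have hτi : IsInert w (σ ^ (p ^ b)) :=
      (RG.inertiaGroup (M ≃ₐ[k] M) w).pow_mem (x := σ) hσ (p ^ b)
    generalize σ ^ (p ^ b) = τ at hτo hτi
    have hrel := RGK.tame_relationK hn hwp hτi hs
    rw [hbw] at hrel
    have hrel' : ∀ m : ℕ, s ^ m * τ * (s ^ m)⁻¹ = τ ^ (nm v ^ m) := fun m => by
      induction m with
      | zero => simp
      | succ m ih =>
        have h1 : s ^ (m + 1) * τ * (s ^ (m + 1))⁻¹ = s * (s ^ m * τ * (s ^ m)⁻¹) * s⁻¹ := by
          rw [pow_succ']; group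
        rw [h1, ih, ← conj_pow, hrel, ← pow_mul, pow_succ, mul_comm (nm v)]
    have h2 := hrel' (p ^ n)
    rw [hpow s, one_mul, inv_one, mul_one] at h2
    have h3 : τ ^ 1 = τ ^ (nm v ^ (p ^ n)) := by rw [pow_one]; exact h2
    rw [pow_eq_pow_iff_modEq, hτo, ← ZMod.natCast_eq_natCast_iff] at h3
    push_cast at h3
    rw [ZMod.pow_card_pow] at h3
    have h4 : ((nm v : ℕ) : ZMod p) = ((1 : ℕ) : ZMod p) := by rw [← h3]; simp
    rw [ZMod.natCast_eq_natCast_iff'] at h4
    rw [h4, Nat.mod_eq_of_lt hp.one_lt]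
  · intro w hw σ hσ
    by_contra hne
    exact hw ⟨w, σ, (RGK.lies_iff_below w _).2 rfl, hσ, hne⟩

end Pool.Agent.RGJ
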