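import Mathlib
import Pool.Agent.Lib.RG.M1
import Pool.Agent.Lib.RG.R1
import Pool.Agent.Lib.RG.R3
import Pool.Agent.Lib.RG.G14
import Pool.Agent.Lib.RGK.MK2
import Pool.Agent.Lib.RGK.MK3
import Pool.Agent.Lib.RGK.MK5
import Pool.Agent.Lib.RGJ.J1
import Pool.Agent.Lib.RGJ.J4
import Pool.Agent.Lib.RGJ.J5
import Pool.Agent.Lib.RGJ.J6
import Pool.Agent.Lib.RGJ.J7

/-!
RGJ, row J8: monotonicity and base change: port of `mono_Q` (RG/M5.lean) and of
`rank_gradient_mono` (RG/RMain.lean) to the base field `K` (see also `mono_K` in RGK/MK5.lean).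
-/

set_option autoImplicit false

namespace Pool.Agent.RGJ

open NumberField IsDedekindDomain
open Pool.Agent.RG (Above IsDec IsInert IsFrob Lies GenBy rankGradient maxExtP GP)
open Pool.Agent.RG.H (Pr below)
open Pool.Agent.RGK (nm MaxExtK InFrK UnrOutK)

private theorem mono' {K : Type} [Field K] [NumberField K] {p : ℕ} [Fact p.Prime]
    {T S : Set (Pr K)} (hsub : T ⊆ S) (hSf : S.Finite) (hS : ∀ q ∈ S, nm q % p = 1)
    (hns : ∀ q ∈ S, q ∉ T → NSplit p T q) (hG : Infinite (GP p T))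
    (h : ∀ ε : ℝ, 0 < ε → ∃ (U : Subgroup (GP p T)) (n : ℕ),
      IsOpen (U : Set (GP p T)) ∧ GenBy U n ∧ ((n : ℝ) - 1) ≤ ε * U.index)
    (htf : ∀ g : GP p T, g ≠ 1 → ∀ n : ℕ, 0 < n → g ^ n ≠ 1) :
    ∃ (i : maxExtP p T →ₐ[K] maxExtP p S) (π : GP p S →* GP p T),
      Continuous π ∧ Function.Surjective π ∧ (∀ g x, g (i x) = i (π g x)) ∧
      ∀ ε : ℝ, 0 < ε → ∃ (V : Subgroup (GP p S)) (n : ℕ),
        IsOpen (V : Set (GP p S)) ∧ π.ker ≤ V ∧ GenBy V n ∧ (n : ℝ) ≤ ε * V.index := by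
  classical
  have hp : p.Prime := Fact.out
  have hX₁ := RGK.maxExtK_maxExtP (K := K) p T
  have hX := RGK.maxExtK_maxExtP (K := K) p S
  have hgal₁ := hX₁.gal
  have hgal := hX.gal
  obtain ⟨i, hi⟩ : ∃ i : maxExtP p T →ₐ[K] maxExtP p S,
      i = IntermediateField.inclusion (RGK.maxExtP_monoK (K := K) p hsub) := ⟨_, rfl⟩
  obtain ⟨π, hc, hs, hπ⟩ := RGK.exists_restrMaxK i
  refine ⟨i, π, hc, hs, hπ, fun ε hε => ?_⟩
  have hfin : Finite {q : Pr K // q ∈ S ∧ q ∉ T} :=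
    Set.Finite.to_subtype (hSf.subset fun q hq => hq.1)
  have hft : Fintype {q : Pr K // q ∈ S ∧ q ∉ T} := Fintype.ofFinite _
  choose z g hzg hrel using fun q : {q : Pr K // q ∈ S ∧ q ∉ T} =>
    RGK.exists_inFrK hX (RGK.not_above_of_nm hp (hS q q.2.1))
  have hker := RGK.ker_restrK hsub hX₁ hX hc hπ
    (fun q : {q : Pr K // q ∈ S ∧ q ∉ T} => (q : Pr K)) (fun q => q.2)
    (fun r hr hr1 => ⟨⟨r, hr, hr1⟩, rfl⟩) z g hzg
  exact RG.M1c_group (fun U hN hU => hX.pro_p U hN hU) hG h π hc hs z g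
    (fun q => nm (q : Pr K)) (fun q => hS q q.2.1) hrel hker (fun q n hn => htf _
      (frob_ne_one hX₁ q.2.2 (hns q q.2.1 q.2.2) ((hzg q).restr hπ)) n hn) ε hε

theorem persistent_of {K : Type} [Field K] [NumberField K] {p : ℕ} [Fact p.Prime]
    {T : Set (Pr K)} (hTf : T.Finite) (hT : ∀ v ∈ T, nm v % p = 1) (hG : Infinite (GP p T))
    (h : ∀ ε : ℝ, 0 < ε → ∃ (U : Subgroup (GP p T)) (n : ℕ),
      IsOpen (U : Set (GP p T)) ∧ GenBy U n ∧ ((n : ℝ) - 1) ≤ ε * U.index)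
    (htf : ∀ g : GP p T, g ≠ 1 → ∀ n : ℕ, 0 < n → g ^ n ≠ 1) : Persistent p T := by
  classical
  intro L M _ _ _ _ _ _ _ hj hd ht S' hfin hN hcont hns
  obtain ⟨j⟩ := hj
  obtain ⟨hR1, hR2, hR3⟩ := ramified_setK hd ht
  obtain ⟨S, hSd⟩ : ∃ S : Set (Pr K), S = T ∪ ((fun w : Pr L => (below w : Pr K)) '' S' ∪
    {v | RamAt v M}) := ⟨_, rfl⟩
  have hsub : T ⊆ S := by rw [hSd]; exact Set.subset_union_left
  have hSf : S.Finite := by rw [hSd]; exact hTf.union ((hfin.image _).union hR1)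
  have hbel : ∀ w ∈ S', (below w : Pr K) ∈ S := fun w hw => by
    rw [hSd]; exact Or.inr (Or.inl ⟨w, hw, rfl⟩)
  have hSp : ∀ v ∈ S, nm v % p = 1 := by
    intro v hv
    rw [hSd] at hv
    rcases hv with h1 | ⟨w, hw, rfl⟩ | h1
    · exact hT v h1
    · exact nm_modK hd j w (hN w hw)
    · exact hR2 v h1
  have hnsS : ∀ v ∈ S, v ∉ T → NSplit p T v := by
    intro v hv hvT
    rw [hSd] at hv
    rcases hv with h1 | ⟨w, hw, rfl⟩ | h1
    · exact absurd h1 hvT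
    · exact hns _ hvT (Or.inl ⟨w, hw, (RGK.lies_iff_below w _).2 rfl⟩)
    · exact hns v hvT (Or.inr h1)
  obtain ⟨i, π, hπc, hπs, hπi, hV⟩ := mono' hsub hSf hSp hnsS hG h htf
  -- the base field
  have hX₁ := RGK.maxExtK_maxExtP (K := K) p T
  have hX := RGK.maxExtK_maxExtP (K := K) p S
  have hgal₁ := hX₁.gal
  have hgal := hX.gal
  have huM : UnrOutK S M := fun w hw σ hσ => hR3 w (fun hr => hw (by
    rw [hSd]; exact Or.inr (Or.inr hr))) σ hσ
  obtain ⟨g⟩ := hX.max M hd huM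
  let _ : Algebra L (maxExtP p S) := (g.comp j).toRingHom.toAlgebra
  have hst : IsScalarTower K L (maxExtP p S) := IsScalarTower.of_algebraMap_eq fun a =>
    ((g.comp j).commutes a).symm
  obtain ⟨e⟩ := exists_isoK (K := L) hX
  obtain ⟨hgY, Φ, hΦc, hΦi, hΦo, hΦv⟩ := exists_embedding_valK (k := K) e
  have hle : maxExtP p S' ≤ maxExtP p (upS S L) := RGK.maxExtP_monoK p fun w hw => hbel w hw
  have hgP := RG.isGalois_maxExtP p S'
  obtain ⟨ρ, hρc, hρs, hρk⟩ := RG.exists_quot hle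
  have hcont' : ∀ w : Pr L, (below w : Pr K) ∈ T → w ∈ S' := fun w hw =>
    hcont w _ hw ((RGK.lies_iff_below w _).2 rfl)
  have hk : ∀ h, ρ h = 1 → π (Φ h) = 1 := by
    intro h hh
    refine AlgEquiv.ext fun x => i.toRingHom.injective ?_
    change i (π (Φ h) x) = i x
    rw [← hπi, hΦv]
    have h1 : (maxExtP p (upS S L)).val (e (i x)) ∈ maxExtP p S' :=
      mem_maxExtPK hcont' hX₁ i
        ((maxExtP p (upS S L)).val.comp (e : maxExtP p S →ₐ[L] maxExtP p (upS S L))) x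
    have h2 := hρk h hh _ h1
    have h3 : h (e (i x)) = e (i x) := Subtype.ext h2
    rw [h3, e.symm_apply_apply]
  obtain ⟨h1, h2⟩ := RG.R3_group π hπc hπs hG hV Φ hΦc hΦi hΦo ρ hρc hρs hk
  exact ⟨h1, RG.rankGradient_eq_zero h1 h2⟩

end Pool.Agent.RGJ
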