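import Mathlib
import Pool.Agent.Lib.RGK.NKDefs
import Pool.Agent.Lib.RGK.ODefs

/-!
RGJ: the combinatorial condition with a fixed finite set `R` of further primes.
-/

set_option autoImplicit false

namespace Pool.Agent.RGJ

open NumberField IsDedekindDomain
open Pool.Agent.RG.H (Pr)
open Pool.Agent.RGK

section

variable {K : Type} [Field K] [NumberField K]

open Classical in
/-- the elements of `S ∪ R` outside the good subset of `S` which are not seen by its characters -/
noncomputable def UsetR (p : ℕ) (T : Finset (Pr K)) (ν : Pr K → Hm K p) (R S : Finset (Pr K)) :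
    Finset (Pr K) :=
  (S ∪ R).filter fun u => u ∉ Gset p T ν S ∧ ∀ f ∈ GC p (Gset p T ν S : Set (Pr K)), f u = 0

/-- The combinatorial condition on `S` and `R`. -/
def CritKR (p : ℕ) (R S : Finset (Pr K)) : Prop :=
  ∃ T ⊆ S, ∃ ν, CoreK p T ν ∧ UsetR p T ν R S = ∅

/-- The same with an omitted prime. -/
def CritKOR (p : ℕ) (R S : Finset (Pr K)) : Prop :=
  ∃ T ⊆ S, ∃ o ν, CoreO p o T ν ∧ UsetR p T ν R S = ∅

end

end Pool.Agent.RGJ
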