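import Mathlib
import Pool.Agent.Lib.RGJ.J10

/-!
RGJ, row J11: the case `L = M = K`: a finite tame set `S` which contains a persistent set `T`, such that
no prime in `S` outside `T` splits completely, has an infinite group with rank gradient zero; the final
theorem.
-/

set_option autoImplicit false

namespace Pool.Agent.RGJ

open NumberField IsDedekindDomain
open Pool.Agent.RG (Above IsDec IsInert IsFrob Lies GenBy rankGradient maxExtP GP)
open Pool.Agent.RG.H (Pr below)
open Pool.Agent.RGK

private theorem not_ram_self {K : Type} [Field K] [NumberField K] (v : Pr K) : ¬ RamAt v K := by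
  rintro ⟨w, σ, -, -, hσ⟩
  exact hσ (Subsingleton.elim _ _)

theorem Persistent.self {K : Type} [Field K] [NumberField K] {p : ℕ} {T S : Set (Pr K)}
    (h : Persistent p T) (hTS : T ⊆ S) (hSf : S.Finite) (hS : ∀ v ∈ S, nm v % p = 1)
    (hns : ∀ v ∈ S, v ∉ T → NSplit p T v) :
    Infinite (GP p S) ∧ rankGradient (GP p S) = 0 := by
  have hl : ∀ w v : Pr K, Lies (algebraMap K K) w v → w = v := by
    intro w v hw
    have h1 := (lies_iff_below w v).1 hw
    rw [← h1]
    refine HeightOneSpectrum.ext ?_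
    have h2 : (below w : Pr K).asIdeal = w.asIdeal.comap (algebraMap (𝓞 K) (𝓞 K)) := rfl
    rw [h2]
    exact (Ideal.comap_id w.asIdeal).symm
  refine h K K ⟨AlgHom.id K K⟩ ⟨0, by rw [pow_zero]; exact Module.finrank_self K⟩
    (fun v _ => not_ram_self v) S hSf hS (fun w v hv hw => ?_) (fun v hvT hv => ?_)
  · rw [hl w v hw]
    exact hTS hv
  · rcases hv with ⟨w, hw, hwv⟩ | hv
    · rw [hl w v hwv] at hw
      exact hns v hw hvT
    · exact absurd hv (not_ram_self v)

theorem persistent_main {K : Type} [Field K] [NumberField K] {p : ℕ} [Fact p.Prime]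
    (hp : p ≠ 2) (R : Finset (Pr K)) (hR : ∀ v ∈ R, nm v % p = 1)
    (S : Finset (Pr K)) (hS : ∀ v ∈ S, nm v % p = 1) :
    Filter.Tendsto (fun k => iterProbK p
      (fun S => (Infinite (GP p (S : Set (Pr K))) ∧ rankGradient (GP p (S : Set (Pr K))) = 0) ∧
        ∃ T ⊆ S, Persistent p (T : Set (Pr K)) ∧
        ∀ v : Pr K, (v ∈ S ∨ v ∈ R) → v ∉ T → NSplit p (T : Set (Pr K)) v) k S)
      Filter.atTop (nhds 1) := by
  have hlim := almost_all_persistentR hp R hR S hS
  have hc := c0K_pos (K := K) (p := p)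
  have h1 : HasDK (P1K (K := K) p) (c0K K p) := by
    by_cases h : ∃ ζ : K, IsPrimitiveRoot ζ p
    · obtain ⟨ζ, hζ⟩ := h
      exact hasDK_P1KI (densI hp hζ)
    · exact hasDK_P1K (density_DS (fun z hz => h ⟨z, hz⟩) fun T hT hT1 ξ hξ =>
        EX hp hT (fun v hv => not_above (hT1 v hv)) hξ)
  refine tendsto_of_tendsto_of_tendsto_of_le_of_le hlim tendsto_const_nhds ?_ ?_
  · intro k
    refine iterProbK_mono p hc h1 (fun S' hS' hcr => ?_) k S hS
    obtain ⟨T, hTS, hT, hns⟩ := hcr
    refine ⟨?_, T, hTS, hT, hns⟩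
    exact hT.self (fun v hv => Finset.mem_coe.2 (hTS (Finset.mem_coe.1 hv))) S'.finite_toSet
      (fun v hv => hS' v (Finset.mem_coe.1 hv))
      (fun v hv hvT => hns v (Or.inl (Finset.mem_coe.1 hv)) fun h => hvT (Finset.mem_coe.2 h))
  · intro k
    exact (iterProbK_bounds p hc h1 _ k S).2

end Pool.Agent.RGJ
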