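import Mathlib
import Pool.Agent.Lib.RGJ.J8
import Pool.Agent.Lib.RGK.MainO

/-!
RGJ, row J9: random sets of primes contain persistent sets.

As `almost_allK`, `almost_allO`, `almost_all_fields` (RGK/MainK, MainO) with the property `∃ T ⊆ S, ..`
instead: `CritK p S` gives `T' := Gset p T ν S`, a core (`core_Gset`); `core_data` (RGK/MK6) and
`persistent_of` show that it is persistent; for `v ∈ S`, `v ∉ T'` there is `f ∈ GC p T'` with
`f v ≠ 0`, the last part of `core_data` and `exists_inFrK` give a Frobenius element `≠ 1`, so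
`nsplit_of_frob`. The same with `CritKO`, `core_dataO` (RGK/OG6) if `K` contains a primitive `p`-th root
of unity.
-/

set_option autoImplicit false

namespace Pool.Agent.RGJ

open NumberField IsDedekindDomain
open Pool.Agent.RG (Above IsDec IsInert IsFrob Lies GenBy rankGradient maxExtP GP)
open Pool.Agent.RG.H (Pr below)
open Pool.Agent.RGK

variable {K : Type} [Field K] [NumberField K]

/-- `S` contains a persistent set `T` and no element of `S` outside `T` splits completely in the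
maximal `p`-extension unramified outside `T`. -/
private def GoodS (p : ℕ) (S : Finset (Pr K)) : Prop :=
  ∃ T ⊆ S, Persistent p (T : Set (Pr K)) ∧ ∀ v ∈ S, v ∉ T → NSplit p (T : Set (Pr K)) v

private theorem good_of {p : ℕ} [Fact p.Prime] {S T : Finset (Pr K)} (hTS : T ⊆ S)
    (hS : ∀ q ∈ S, nm q % p = 1)
    (hdata : Infinite (GP p (T : Set (Pr K))) ∧
      (∀ ε : ℝ, 0 < ε → ∃ (U : Subgroup (GP p (T : Set (Pr K)))) (n : ℕ),
        IsOpen (U : Set (GP p (T : Set (Pr K)))) ∧ GenBy U n ∧ ((n : ℝ) - 1) ≤ ε * U.index) ∧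
      (∀ g : GP p (T : Set (Pr K)), g ≠ 1 → ∀ n : ℕ, 0 < n → g ^ n ≠ 1) ∧
      ∀ q : Pr K, q ∉ T → nm q % p = 1 → (∃ f ∈ GC p (T : Set (Pr K)), f q ≠ 0) →
        ∀ x y : GP p (T : Set (Pr K)), InFrK q x y → y ≠ 1)
    (hU : ∀ q ∈ S, q ∉ T → ∃ f ∈ GC p (T : Set (Pr K)), f q ≠ 0) : GoodS p S := by
  have hp : p.Prime := Fact.out
  obtain ⟨h1, h2, h3, h4⟩ := hdata
  have hX := maxExtK_maxExtP (K := K) p (T : Set (Pr K))
  have hgal := hX.gal
  refine ⟨T, hTS, persistent_of T.finite_toSet (fun v hv => hS v (hTS hv)) h1 h2 h3,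
    fun v hv hvT => ?_⟩
  obtain ⟨x, y, hxy, -⟩ := exists_inFrK hX (not_above_of_nm hp (hS v hv))
  exact nsplit_of_frob hX hxy (h4 v hvT (hS v hv) (hU v hv hvT) x y hxy)

private theorem good_critK {p : ℕ} [Fact p.Prime] (hp : p ≠ 2) {S : Finset (Pr K)}
    (hS : ∀ q ∈ S, nm q % p = 1) (h : CritK p S) : GoodS p S := by
  classical
  obtain ⟨T, hTS, ν, hT, hU⟩ := h
  have hG := core_Gset hT S
  refine good_of (T := Gset p T ν S) ?_ hS (core_data hp hG) ?_
  · intro q hq
    unfold Gset at hq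
    rcases Finset.mem_union.1 hq with h5 | h5
    · exact hTS h5
    · exact (Finset.mem_filter.1 h5).1
  · intro q hq hqG
    by_contra hcon
    push Not at hcon
    have h5 : q ∈ Uset p T ν S := by
      unfold Uset
      exact Finset.mem_filter.2 ⟨hq, hqG, hcon⟩
    rw [hU] at h5
    exact absurd h5 (Finset.notMem_empty q)

private theorem good_critKO {p : ℕ} [Fact p.Prime] (hp : p ≠ 2) {ζ : K}
    (hζ : IsPrimitiveRoot ζ p) {S : Finset (Pr K)} (hS : ∀ q ∈ S, nm q % p = 1)
    (h : CritKO p S) : GoodS p S := by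
  classical
  obtain ⟨T, hTS, o, ν, hT, hU⟩ := h
  have hG := coreO_Gset hT S
  refine good_of (T := Gset p T ν S) ?_ hS (core_dataO hp hζ hG) ?_
  · intro q hq
    unfold Gset at hq
    rcases Finset.mem_union.1 hq with h5 | h5
    · exact hTS h5
    · exact (Finset.mem_filter.1 h5).1
  · intro q hq hqG
    by_contra hcon
    push Not at hcon
    have h5 : q ∈ Uset p T ν S := by
      unfold Uset
      exact Finset.mem_filter.2 ⟨hq, hqG, hcon⟩
    rw [hU] at h5
    exact absurd h5 (Finset.notMem_empty q)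

private theorem almostK {p : ℕ} [Fact p.Prime] (hp : p ≠ 2)
    (hζ : ∀ z : K, ¬ IsPrimitiveRoot z p) (S : Finset (Pr K)) (hS : ∀ v ∈ S, nm v % p = 1) :
    Filter.Tendsto (fun k => iterProbK p (GoodS p) k S) Filter.atTop (nhds 1) := by
  have hD : DensK K p := density_DS hζ fun T hT hT1 ξ hξ =>
    EX hp hT (fun v hv => not_above (hT1 v hv)) hξ
  obtain ⟨St, δ, n, hδ, h0, hstep, hcore⟩ := core_chain (K := K) hp hD
  have hlim := crit_limitK hp hD hδ h0 hstep hcore S hS
  have hc := c0K_pos (K := K) (p := p)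
  have h1 := hasDK_P1K hD
  refine tendsto_of_tendsto_of_tendsto_of_le_of_le hlim tendsto_const_nhds ?_ ?_
  · intro k
    exact iterProbK_mono p hc h1 (fun S' hS' hcr => good_critK hp hS' hcr) k S hS
  · intro k
    exact (iterProbK_bounds p hc h1 _ k S).2

private theorem almostO {p : ℕ} [Fact p.Prime] (hp : p ≠ 2) {ζ : K} (hζ : IsPrimitiveRoot ζ p)
    (S : Finset (Pr K)) (hS : ∀ v ∈ S, nm v % p = 1) :
    Filter.Tendsto (fun k => iterProbK p (GoodS p) k S) Filter.atTop (nhds 1) := by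
  have hD : DensI K p := densI hp hζ
  obtain ⟨St, δ, n, hδ, h0, hstep, hcore⟩ := core_chainO (K := K) hp hζ
  have hlim := crit_limitO hD hδ h0 hstep hcore S hS
  have hc := c0K_pos (K := K) (p := p)
  have h1 := hasDK_P1KI hD
  refine tendsto_of_tendsto_of_tendsto_of_le_of_le hlim tendsto_const_nhds ?_ ?_
  · intro k
    exact iterProbK_mono p hc h1 (fun S' hS' hcr => good_critKO hp hζ hS' hcr) k S hS
  · intro k
    exact (iterProbK_bounds p hc h1 _ k S).2

theorem almost_all_persistent {K : Type} [Field K] [NumberField K] {p : ℕ} [Fact p.Prime]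
    (hp : p ≠ 2) (S : Finset (Pr K)) (hS : ∀ v ∈ S, nm v % p = 1) :
    Filter.Tendsto (fun k => iterProbK p
      (fun S => ∃ T ⊆ S, Persistent p (T : Set (Pr K)) ∧
        ∀ v ∈ S, v ∉ T → NSplit p (T : Set (Pr K)) v) k S)
      Filter.atTop (nhds 1) := by
  by_cases h : ∃ ζ : K, IsPrimitiveRoot ζ p
  · obtain ⟨ζ, hζ⟩ := h
    exact almostO hp hζ S hS
  · exact almostK hp (fun z hz => h ⟨z, hz⟩) S hS

end Pool.Agent.RGJ
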